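import Mathlib
import Pool.Agent.H59.Red

set_option autoImplicit false

namespace Pool.Agent.Results.MP_8a4b73_nt.Disproof

open Finset Matrix Pool.Agent.H59.Red

/-- The Redheffer matrix: row `i` and column `j` stand for the integers `i + 1` and `j + 1`; the
entry is `1` if `j + 1 = 1` or `i + 1 ∣ j + 1`, and `0` otherwise. -/
def A (n : ℕ) : Matrix (Fin n) (Fin n) ℂ :=
  fun i j => if j.val + 1 = 1 ∨ i.val + 1 ∣ j.val + 1 then 1 else 0

/-- The eigenvalues of `A n`, with algebraic multiplicity. -/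
noncomputable def eig (n : ℕ) : Multiset ℂ := (A n).charpoly.roots

lemma root (n : ℕ) (hn : 0 < n) (l : ℝ) (hl : l ≠ 1) (h : F n l = 0) : (l : ℂ) ∈ eig n := by
  rw [eig, Polynomial.mem_roots (charpoly_monic _).ne_zero, Polynomial.IsRoot, eval_charpoly,
    ← exists_vecMul_eq_zero_iff]
  refine ⟨fun i => c l (i.val + 1), fun h0 => ?_, ?_⟩
  · simpa [c_one] using congrFun h0 ⟨0, hn⟩
  ext j
  rw [vecMul_sub, scalar_apply, Pi.sub_apply, vecMul_diagonal, Pi.zero_apply, sub_eq_zero]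
  simp only [vecMul, dotProduct, A, mul_ite, mul_one, mul_zero]
  rw [Fin.sum_univ_eq_sum_range
    (fun i => if j.val + 1 = 1 ∨ i + 1 ∣ j.val + 1 then (c l (i + 1) : ℂ) else 0) n]
  by_cases hj : j.val = 0
  · simp only [hj, zero_add, true_or, if_true, c_one]
    rw [F, sub_eq_zero] at h
    rw [← Complex.ofReal_sum, h]; simp
  · rw [← sum_filter, ← Complex.ofReal_sum, ← Complex.ofReal_mul, mul_comm,
      ← c_div l hl _ (by omega) (by omega)]
    congr 1
    symm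
    refine sum_nbij' (fun i => i + 1) (fun d => d - 1) ?_ ?_ ?_ ?_ ?_
    · intro i hi
      simp only [mem_filter, mem_range] at hi
      exact Nat.mem_divisors.2 ⟨hi.2.resolve_left (by omega), by omega⟩
    · intro d hd
      have a1 := Nat.pos_of_mem_divisors hd
      have a2 := Nat.divisor_le hd
      have a3 := j.isLt
      refine mem_filter.2 ⟨mem_range.2 (by omega), Or.inr ?_⟩
      rw [Nat.sub_add_cancel a1]; exact Nat.dvd_of_mem_divisors hd
    · intro i _; simp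
    · intro d hd; exact Nat.sub_add_cancel (Nat.pos_of_mem_divisors hd)
    · intro i _; rfl

lemma ivt (n : ℕ) (u v : ℝ) (huv : u ≤ v) (h1 : v < 1 ∨ 1 < u) (h : F n u * F n v < 0) :
    ∃ x, u < x ∧ x < v ∧ F n x = 0 := by
  have hc : ContinuousOn (F n) (Set.Icc u v) := (F_cont n).mono fun x hx hx1 => by
    rcases h1 with h1 | h1 <;> linarith [hx.1, hx.2, show x = 1 from hx1]
  rcases mul_neg_iff.1 h with h | h
  · obtain ⟨x, hx, e⟩ := intermediate_value_Ioo' huv hc ⟨h.2, h.1⟩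
    exact ⟨x, hx.1, hx.2, e⟩
  · obtain ⟨x, hx, e⟩ := intermediate_value_Ioo huv hc ⟨h.1, h.2⟩
    exact ⟨x, hx.1, hx.2, e⟩

theorem result (N : ℕ) : ∃ n ≥ N,
    (∃ x y z : ℝ, x < -(√n / 2) ∧ -(√n / 2) < y ∧ y < -101 / 100 ∧ 2 < z ∧
      (x : ℂ) ∈ eig n ∧ (y : ℂ) ∈ eig n ∧ (z : ℂ) ∈ eig n) ∧
    ∀ p q : ℂ, ∃ w ∈ eig n - Multiset.replicate (n - Nat.log 2 n - 1) 1 - {p, q}, 1 < ‖w‖ := by
  obtain ⟨n, hn, h⟩ := F_often (N + 2 ^ 20)
  have n1 : (2 : ℝ) ^ 20 ≤ n := by exact_mod_cast (by omega : 2 ^ 20 ≤ n)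
  have k1 := Real.le_sqrt_of_sq_le (x := 1024) (y := n) (by linarith)
  have k2 : √(n : ℝ) ≤ n + 1 := Real.sqrt_le_iff.2 ⟨by positivity, by nlinarith⟩
  have m := F_mid n (by omega)
  obtain ⟨x, -, x2, x3⟩ := ivt n (-(n + 1)) (-(√n / 2)) (by linarith) (Or.inl (by linarith))
    (mul_neg_of_pos_of_neg (F_left n) m)
  obtain ⟨y, y1, y2, y3⟩ := ivt n (-(√n / 2)) (-101 / 100) (by linarith) (Or.inl (by linarith))
    (mul_neg_of_neg_of_pos m h)
  obtain ⟨z, z1, -, z3⟩ := ivt n 2 (n + 1) (by linarith) (Or.inr (by linarith))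
    (mul_neg_of_pos_of_neg (F_two n (by omega)) (F_right n))
  have rx := root n (by omega) x (by linarith) x3
  have ry := root n (by omega) y (by linarith) y3
  have rz := root n (by omega) z (by linarith) z3
  refine ⟨n, by omega, ⟨x, y, z, x2, y1, y2, z1, rx, ry, rz⟩, fun p q => ?_⟩
  have key : ∀ t : ℝ, 1 < |t| → (t : ℂ) ∈ eig n → (t : ℂ) ≠ p → (t : ℂ) ≠ q →
      ∃ w ∈ eig n - Multiset.replicate (n - Nat.log 2 n - 1) 1 - {p, q}, 1 < ‖w‖ := by
    intro t h1 h2 h3 h4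
    have h5 : (1 : ℂ) ≠ t := fun e => by
      have : t = 1 := by exact_mod_cast e.symm
      simp [this] at h1
    refine ⟨t, ?_, by simpa using h1⟩
    rw [← Multiset.one_le_count_iff_mem] at h2 ⊢
    simp [Multiset.count_sub, Multiset.count_replicate, h3, h4, h5, h2]
  have ax : 1 < |x| := lt_abs.2 (Or.inr (by linarith))
  have ay : 1 < |y| := lt_abs.2 (Or.inr (by linarith))
  have az : 1 < |z| := lt_abs.2 (Or.inl (by linarith))
  have d1 : (x : ℂ) ≠ y := by exact_mod_cast (by linarith : x < y).ne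
  have d2 : (x : ℂ) ≠ z := by exact_mod_cast (by linarith : x < z).ne
  have d3 : (y : ℂ) ≠ z := by exact_mod_cast (by linarith : y < z).ne
  by_cases a1 : (x : ℂ) = p
  · by_cases a2 : (y : ℂ) = q
    · exact key z az rz (a1 ▸ d2.symm) (a2 ▸ d3.symm)
    · exact key y ay ry (a1 ▸ d1.symm) a2
  · by_cases a2 : (x : ℂ) = q
    · by_cases a3 : (y : ℂ) = p
      · exact key z az rz (a3 ▸ d3.symm) (a2 ▸ d2.symm)
      · exact key y ay ry a3 (a2 ▸ d1.symm)
    · exact key x ax rx a1 a2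

end Pool.Agent.Results.MP_8a4b73_nt.Disproof
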